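import Pool.Agent.N160.SN.GLC
import Pool.Agent.N818.SN.Stm4

/-!
# Project SN (helper818), second part: the four-dimensional Gaussian law

Adaptation by helper558 of the proof of the joint Gaussian law by helper160.
-/

set_option autoImplicit false

open scoped Classical

namespace Pool.Agent.N558.SN

open Finset Complex Filter Topology ProbabilityTheory

open Pool.Agent.W262.RK (PS)
open Pool.Agent.N160.SN (SQ SQ_nonempty sq_cf gauss_cont ll_cmp)
open Pool.Agent.N818.SN (mX)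

/-- sums of a function modulo twenty-four over the primes -/
theorem mer24 (h : ℕ → ℝ) (hm : ∀ p, h (p % 24) = h p) (z : ℕ) (hz : 10 ≤ z) :
    ∃ C : ℝ, 0 ≤ C ∧ ∀ y : ℕ, z < y → |∑ p ∈ PS z y, h p * (1 / (p : ℝ)) -
      (h 1 + h 5 + h 7 + h 11 + h 13 + h 17 + h 19 + h 23) / 8 *
        Real.log (Real.log y)| ≤ C := by
  obtain ⟨Q, hQ⟩ : ∃ Q : Finset ℕ, Q = {1, 5, 7, 11, 13, 17, 19, 23} := ⟨_, rfl⟩
  have hM : ∀ a : ℕ, ∃ C : ℝ, a ∈ Q → (0 ≤ C ∧ ∀ x : ℕ, 3 ≤ x →
      |∑ p ∈ (Icc 1 x).filter (fun p => p.Prime ∧ p % 24 = a), (1 : ℝ) / p -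
        1 / 8 * Real.log (Real.log x)| ≤ C) := by
    intro a
    by_cases ha : a ∈ Q
    · have h12 : a < 24 ∧ a.Coprime 24 := by
        rw [hQ] at ha
        simp only [mem_insert, mem_singleton] at ha
        rcases ha with rfl | rfl | rfl | rfl | rfl | rfl | rfl | rfl <;>
          exact ⟨by norm_num, by decide⟩
      obtain ⟨C, h0, hC⟩ := Pool.Agent.Y405.CQ.mertens_ap 24 (by norm_num) a h12.1 h12.2
      refine ⟨C, fun _ => ⟨h0, fun x hx => ?_⟩⟩
      have h1 := hC x hx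
      have h2 : Nat.totient 24 = 8 := by decide
      rw [h2] at h1
      exact_mod_cast h1
    · exact ⟨0, fun h' => absurd h' ha⟩
  choose C hC using hM
  obtain ⟨S, hS⟩ : ∃ S : ℕ → ℕ → ℝ, S = fun (a x : ℕ) =>
    ∑ p ∈ (Icc 1 x).filter (fun p : ℕ => p.Prime ∧ p % 24 = a), (1 : ℝ) / p := ⟨_, rfl⟩
  refine ⟨∑ a ∈ Q, |h a| * (C a + |S a z|), sum_nonneg fun a ha =>
    mul_nonneg (abs_nonneg _) (add_nonneg (hC a ha).1 (abs_nonneg _)), fun y hy => ?_⟩
  have hmap : ∀ p ∈ PS z y, p % 24 ∈ Q := by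
    intro p hp
    unfold PS at hp
    rw [mem_filter, mem_Ioc] at hp
    obtain ⟨⟨h1, h2⟩, h3⟩ := hp
    have h4 : ¬ 2 ∣ p := fun hd => by
      have := (Nat.prime_dvd_prime_iff_eq Nat.prime_two h3).1 hd
      omega
    have h5 : ¬ 3 ∣ p := fun hd => by
      have := (Nat.prime_dvd_prime_iff_eq Nat.prime_three h3).1 hd
      omega
    rw [hQ]
    simp only [mem_insert, mem_singleton]
    omega
  have e1 : ∑ p ∈ PS z y, h p * (1 / (p : ℝ)) = ∑ a ∈ Q, h a * (S a y - S a z) := by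
    rw [← sum_fiberwise_of_maps_to hmap]
    refine sum_congr rfl fun a _ => ?_
    have e2 : ∑ p ∈ (PS z y).filter (fun p => p % 24 = a), h p * (1 / (p : ℝ)) =
        h a * ∑ p ∈ (PS z y).filter (fun p => p % 24 = a), (1 / (p : ℝ)) := by
      rw [mul_sum]
      refine sum_congr rfl fun p hp => ?_
      rw [← hm p, (mem_filter.1 hp).2]
    rw [e2]
    congr 1
    rw [eq_sub_iff_add_eq, hS]
    simp only
    rw [← sum_union]
    · congr 1
      ext p
      unfold PS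
      simp only [mem_union, mem_filter, mem_Ioc, mem_Icc]
      constructor
      · rintro (⟨⟨⟨a1, a2⟩, a3⟩, a4⟩ | ⟨⟨a1, a2⟩, a3, a4⟩)
        · exact ⟨⟨by omega, a2⟩, a3, a4⟩
        · exact ⟨⟨a1, by omega⟩, a3, a4⟩
      · rintro ⟨⟨a1, a2⟩, a3, a4⟩
        by_cases hp : p ≤ z
        · exact Or.inr ⟨⟨a1, hp⟩, a3, a4⟩
        · exact Or.inl ⟨⟨⟨by omega, a2⟩, a3⟩, a4⟩
    · rw [disjoint_left]
      intro p h1 h2
      unfold PS at h1
      rw [mem_filter, mem_filter, mem_Ioc] at h1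
      rw [mem_filter, mem_Icc] at h2
      omega
  have e3 : (h 1 + h 5 + h 7 + h 11 + h 13 + h 17 + h 19 + h 23) / 8 * Real.log (Real.log y) =
      ∑ a ∈ Q, h a * (1 / 8 * Real.log (Real.log y)) := by
    rw [hQ]
    rw [sum_insert (by decide), sum_insert (by decide), sum_insert (by decide),
      sum_insert (by decide), sum_insert (by decide), sum_insert (by decide),
      sum_insert (by decide), sum_singleton]
    ring
  rw [e1, e3, ← sum_sub_distrib]
  refine (abs_sum_le_sum_abs _ _).trans (sum_le_sum fun a ha => ?_)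
  have e4 : h a * (S a y - S a z) - h a * (1 / 8 * Real.log (Real.log y)) =
      h a * ((S a y - 1 / 8 * Real.log (Real.log y)) - S a z) := by ring
  rw [e4, abs_mul]
  refine mul_le_mul_of_nonneg_left ?_ (abs_nonneg _)
  refine (abs_sub _ _).trans (add_le_add ?_ le_rfl)
  have h1 := (hC a ha).2 y (by omega)
  rw [hS]
  exact h1

section gen

variable (W : ℕ → ℝ) (c μ V : ℝ)

/-- the law with the normalization at the square root -/
lemma law_gen (hV0 : 0 < V) (hWc : ∀ p, |W p| ≤ c)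
    (hw1 : ∀ z : ℕ, 10 ≤ z → ∃ C : ℝ, 0 ≤ C ∧ ∀ y : ℕ, z < y →
      |∑ p ∈ PS z y, W p * (1 / (p : ℝ)) - μ * Real.log (Real.log y)| ≤ C)
    (hw2 : ∀ z : ℕ, 10 ≤ z → ∃ C : ℝ, 0 ≤ C ∧ ∀ y : ℕ, z < y →
      |∑ p ∈ PS z y, W p ^ 2 * (1 / (p : ℝ)) - V * ∑ p ∈ PS z y, 1 / (p : ℝ)| ≤ C) (x : ℝ) :
    Tendsto (fun X : ℕ =>
    (((SQ X).filter fun n => (∑ p ∈ n.primeFactors, W p - μ * Real.log (Real.log (Nat.sqrt X))) /
      (√V * √(Real.log (Real.log (Nat.sqrt X)))) ≤ x).card : ℝ) /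
        ((SQ X).card : ℝ)) atTop (𝓝 ((gaussianReal 0 1).real (Set.Iic x))) := by
  have hsV : 0 < √V := Real.sqrt_pos.2 hV0
  have hsV2 : √V ^ 2 = V := Real.sq_sqrt hV0.le
  have hc0 : 0 ≤ c := (abs_nonneg _).trans (hWc 0)
  have key : ∀ θ : ℝ, Tendsto (fun X : ℕ => (∑ n ∈ SQ X, cexp ((((∑ p ∈ n.primeFactors,
      (θ / √V * W p) - (θ / √V * μ) * Real.log (Real.log (Nat.sqrt X))) /
        √(Real.log (Real.log (Nat.sqrt X))) : ℝ) : ℂ) * I)) /
        ((SQ X).card : ℂ)) atTop (𝓝 ((Real.exp (-(θ ^ 2 / 2)) : ℝ) : ℂ)) := by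
    intro θ
    refine sq_cf (fun p => θ / √V * W p) (2 * (|θ / √V| * c) + 1) ?_ ?_
      (θ / √V * μ) (θ ^ 2) (sq_nonneg _) ?_ ?_
    · have : 0 ≤ |θ / √V| * c := by positivity
      linarith
    · intro p
      rw [abs_mul]
      have h1 := mul_le_mul_of_nonneg_left (hWc p) (abs_nonneg (θ / √V))
      linarith
    · intro z hz
      obtain ⟨C, hC0, hC⟩ := hw1 z hz
      refine ⟨|θ / √V| * C, by positivity, fun y hy => ?_⟩
      have e : ∑ p ∈ PS z y, θ / √V * W p * (1 / (p : ℝ)) - θ / √V * μ * Real.log (Real.log y) =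
          θ / √V * (∑ p ∈ PS z y, W p * (1 / (p : ℝ)) - μ * Real.log (Real.log y)) := by
        rw [mul_sub, mul_sum]
        congr 1
        · exact sum_congr rfl fun p _ => by ring
        · ring
      rw [e, abs_mul]
      exact mul_le_mul_of_nonneg_left (hC y hy) (abs_nonneg _)
    · intro z hz
      obtain ⟨C, hC0, hC⟩ := hw2 z hz
      refine ⟨(θ / √V) ^ 2 * C, by positivity, fun y hy => ?_⟩
      have e : ∑ p ∈ PS z y, (θ / √V * W p) ^ 2 * (1 / (p : ℝ)) -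
          θ ^ 2 * ∑ p ∈ PS z y, 1 / (p : ℝ) =
          (θ / √V) ^ 2 * (∑ p ∈ PS z y, W p ^ 2 * (1 / (p : ℝ)) -
            V * ∑ p ∈ PS z y, 1 / (p : ℝ)) := by
        have e1 : ∑ p ∈ PS z y, (θ / √V * W p) ^ 2 * (1 / (p : ℝ)) =
            (θ / √V) ^ 2 * ∑ p ∈ PS z y, W p ^ 2 * (1 / (p : ℝ)) := by
          rw [mul_sum]
          exact sum_congr rfl fun p _ => by ring
        have e2 : (θ / √V) ^ 2 * V = θ ^ 2 := by
          rw [div_pow, hsV2]
          field_simp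
        rw [e1, mul_sub, ← mul_assoc, e2]
      rw [e, abs_mul, abs_of_nonneg (sq_nonneg _)]
      exact mul_le_mul_of_nonneg_left (hC y hy) (sq_nonneg _)
  have h := Pool.Agent.R421.EK.law_of (ι := Unit) (fun n => SQ (n + 11)) SQ_nonempty
    (fun n m _ => (∑ p ∈ m.primeFactors, W p -
      μ * Real.log (Real.log (Nat.sqrt (n + 11)))) /
      (√V * √(Real.log (Real.log (Nat.sqrt (n + 11)))))) (fun θ => by
      have h1 := (key (θ ())).comp (tendsto_add_atTop_nat 11)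
      have e : -(∑ i, θ i ^ 2) / 2 = -((θ ()) ^ 2 / 2) := by
        rw [Fintype.sum_unique]
        have : (default : Unit) = () := rfl
        rw [this]
        ring
      rw [e]
      refine h1.congr fun n => ?_
      simp only [Function.comp_apply]
      congr 1
      refine sum_congr rfl fun m _ => ?_
      congr 3
      rw [Fintype.sum_unique, ← mul_sum]
      have : (default : Unit) = () := rfl
      rw [this]
      rw [mul_comm (√V), ← div_div]
      ring) (fun _ => x)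
  rw [Fintype.prod_unique] at h
  rw [← tendsto_add_atTop_iff_nat 11]
  refine h.congr fun n => ?_
  congr 2
  refine congrArg _ (filter_congr fun m _ => ?_)
  constructor
  · exact fun h1 => h1 ()
  · exact fun h1 _ => h1

/-- the Gaussian law for general weights -/
theorem gauss_gen (hV0 : 0 < V) (hWc : ∀ p, |W p| ≤ c)
    (hw1 : ∀ z : ℕ, 10 ≤ z → ∃ C : ℝ, 0 ≤ C ∧ ∀ y : ℕ, z < y →
      |∑ p ∈ PS z y, W p * (1 / (p : ℝ)) - μ * Real.log (Real.log y)| ≤ C)
    (hw2 : ∀ z : ℕ, 10 ≤ z → ∃ C : ℝ, 0 ≤ C ∧ ∀ y : ℕ, z < y →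
      |∑ p ∈ PS z y, W p ^ 2 * (1 / (p : ℝ)) - V * ∑ p ∈ PS z y, 1 / (p : ℝ)| ≤ C) (t : ℝ) :
    Tendsto (fun X : ℕ => (((SQ X).filter fun n => ∑ p ∈ n.primeFactors, W p ≤
      μ * Real.log (Real.log X) + t * √(V * Real.log (Real.log X))).card : ℝ) /
        ((SQ X).card : ℝ)) atTop (𝓝 ((gaussianReal 0 1).real (Set.Iic t))) := by
  have hlaw := law_gen W c μ V hV0 hWc hw1 hw2
  have hsV : 0 < √V := Real.sqrt_pos.2 hV0
  -- the comparison of the thresholds
  have hthr : ∀ δ : ℝ, 0 < δ → ∀ᶠ X : ℕ in atTop, 0 < Real.log (Real.log (Nat.sqrt X)) ∧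
      |μ * Real.log (Real.log X) + t * √(V * Real.log (Real.log X)) -
        (μ * Real.log (Real.log (Nat.sqrt X)) +
          t * (√V * √(Real.log (Real.log (Nat.sqrt X)))))| ≤
        δ * (√V * √(Real.log (Real.log (Nat.sqrt X)))) := by
    intro δ hδ
    obtain ⟨E, hE⟩ : ∃ E : ℝ, E = (|μ| * 2 + |t| * √V * 2) / (δ * √V) := ⟨_, rfl⟩
    have hE0 : 0 ≤ E := by
      rw [hE]
      positivity
    obtain ⟨X1, hX1⟩ := Pool.Agent.R421.NR.big_ll ((E + 1) ^ 2)
    rw [eventually_atTop]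
    refine ⟨(X1 + 9) ^ 2, fun X hX => ?_⟩
    have hs : X1 + 9 ≤ Nat.sqrt X := by
      rw [Nat.le_sqrt']
      exact hX
    have hX9 : 9 ≤ X := by
      have := Nat.sqrt_le_self X
      omega
    have h1 := hX1 (Nat.sqrt X) (by omega)
    obtain ⟨h2, h3⟩ := ll_cmp X hX9
    generalize Real.log (Real.log (Nat.sqrt X)) = ℓ at h1 h2 h3 ⊢
    generalize Real.log (Real.log (X : ℝ)) = L at h2 h3 ⊢
    have hsl : E + 1 ≤ √ℓ := Real.le_sqrt_of_sq_le h1
    have hsl1 : 1 ≤ √ℓ := by linarith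
    have hℓ0 : 0 < ℓ := by nlinarith
    have hsq : √ℓ ^ 2 = ℓ := Real.sq_sqrt hℓ0.le
    have hsq' : √L ^ 2 = L := Real.sq_sqrt (by linarith)
    have hle : √ℓ ≤ √L := Real.sqrt_le_sqrt h2
    have hdiff : √L - √ℓ ≤ 2 := by
      have h4 : (√L - √ℓ) * (√L + √ℓ) ≤ 2 := by nlinarith
      nlinarith
    refine ⟨hℓ0, ?_⟩
    rw [Real.sqrt_mul hV0.le]
    have e : μ * L + t * (√V * √L) - (μ * ℓ + t * (√V * √ℓ)) =
        μ * (L - ℓ) + t * √V * (√L - √ℓ) := by ring
    rw [e]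
    have h5 : |μ * (L - ℓ) + t * √V * (√L - √ℓ)| ≤ |μ| * 2 + |t| * √V * 2 := by
      refine (abs_add_le _ _).trans (add_le_add ?_ ?_)
      · rw [abs_mul, abs_of_nonneg (a := L - ℓ) (by linarith)]
        exact mul_le_mul_of_nonneg_left (by linarith) (abs_nonneg _)
      · rw [abs_mul, abs_mul, abs_of_pos hsV, abs_of_nonneg (a := √L - √ℓ) (by linarith)]
        exact mul_le_mul_of_nonneg_left hdiff (by positivity)
    refine h5.trans ?_
    have h6 : E * (δ * √V) = |μ| * 2 + |t| * √V * 2 := by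
      rw [hE]
      field_simp
    rw [← h6]
    have h7 : 0 < δ * √V := by positivity
    nlinarith
  have hup : ∀ δ : ℝ, 0 < δ → ∀ᶠ X : ℕ in atTop,
      (((SQ X).filter fun n => ∑ p ∈ n.primeFactors, W p ≤ μ * Real.log (Real.log X) +
        t * √(V * Real.log (Real.log X))).card : ℝ) / ((SQ X).card : ℝ) ≤
      (((SQ X).filter fun n => (∑ p ∈ n.primeFactors, W p -
        μ * Real.log (Real.log (Nat.sqrt X))) /
        (√V * √(Real.log (Real.log (Nat.sqrt X)))) ≤ t + δ).card : ℝ) / ((SQ X).card : ℝ) := by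
    intro δ hδ
    filter_upwards [hthr δ hδ] with X ⟨h1, h2⟩
    refine div_le_div_of_nonneg_right ?_ (Nat.cast_nonneg _)
    have h3 : (SQ X).filter (fun n => ∑ p ∈ n.primeFactors, W p ≤ μ * Real.log (Real.log X) +
        t * √(V * Real.log (Real.log X))) ⊆ (SQ X).filter (fun n => (∑ p ∈ n.primeFactors, W p -
        μ * Real.log (Real.log (Nat.sqrt X))) /
        (√V * √(Real.log (Real.log (Nat.sqrt X)))) ≤ t + δ) := by
      intro n hn
      rw [mem_filter] at hn ⊢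
      refine ⟨hn.1, ?_⟩
      have h4 : 0 < √V * √(Real.log (Real.log (Nat.sqrt X))) :=
        mul_pos hsV (Real.sqrt_pos.2 h1)
      rw [div_le_iff₀ h4]
      have h5 := hn.2
      have h6 := (abs_le.1 h2).2
      linarith
    exact_mod_cast card_le_card h3
  have hlo : ∀ δ : ℝ, 0 < δ → ∀ᶠ X : ℕ in atTop,
      (((SQ X).filter fun n => (∑ p ∈ n.primeFactors, W p -
        μ * Real.log (Real.log (Nat.sqrt X))) /
        (√V * √(Real.log (Real.log (Nat.sqrt X)))) ≤ t - δ).card : ℝ) / ((SQ X).card : ℝ) ≤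
      (((SQ X).filter fun n => ∑ p ∈ n.primeFactors, W p ≤ μ * Real.log (Real.log X) +
        t * √(V * Real.log (Real.log X))).card : ℝ) / ((SQ X).card : ℝ) := by
    intro δ hδ
    filter_upwards [hthr δ hδ] with X ⟨h1, h2⟩
    refine div_le_div_of_nonneg_right ?_ (Nat.cast_nonneg _)
    have h3 : (SQ X).filter (fun n => (∑ p ∈ n.primeFactors, W p -
        μ * Real.log (Real.log (Nat.sqrt X))) /
        (√V * √(Real.log (Real.log (Nat.sqrt X)))) ≤ t - δ) ⊆ (SQ X).filter (fun n =>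
        ∑ p ∈ n.primeFactors, W p ≤ μ * Real.log (Real.log X) +
        t * √(V * Real.log (Real.log X))) := by
      intro n hn
      rw [mem_filter] at hn ⊢
      refine ⟨hn.1, ?_⟩
      have h4 : 0 < √V * √(Real.log (Real.log (Nat.sqrt X))) :=
        mul_pos hsV (Real.sqrt_pos.2 h1)
      have h5 := hn.2
      rw [div_le_iff₀ h4] at h5
      have h6 := (abs_le.1 h2).1
      linarith
    exact_mod_cast card_le_card h3
  rw [tendsto_order]
  constructor
  · intro a ha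
    have h1 : ∀ᶠ x in 𝓝 t, a < (gaussianReal 0 1).real (Set.Iic x) :=
      gauss_cont.continuousAt.eventually (lt_mem_nhds ha)
    obtain ⟨r, hr, hball⟩ := Metric.eventually_nhds_iff.1 h1
    have h2 : a < (gaussianReal 0 1).real (Set.Iic (t - r / 2)) := by
      apply hball
      rw [Real.dist_eq, abs_lt]
      constructor <;> linarith
    filter_upwards [(hlaw (t - r / 2)).eventually (lt_mem_nhds h2), hlo (r / 2) (by positivity)]
      with X h3 h4
    exact h3.trans_le h4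
  · intro b hb
    have h1 : ∀ᶠ x in 𝓝 t, (gaussianReal 0 1).real (Set.Iic x) < b :=
      gauss_cont.continuousAt.eventually (gt_mem_nhds hb)
    obtain ⟨r, hr, hball⟩ := Metric.eventually_nhds_iff.1 h1
    have h2 : (gaussianReal 0 1).real (Set.Iic (t + r / 2)) < b := by
      apply hball
      rw [Real.dist_eq, abs_lt]
      constructor <;> linarith
    filter_upwards [(hlaw (t + r / 2)).eventually (gt_mem_nhds h2), hup (r / 2) (by positivity)]
      with X h3 h4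
    exact h4.trans_lt h3

end gen

/-- the classes -/
def S4 : Fin 4 → Finset ℕ := ![{5, 11, 17, 23}, {5, 7, 17, 19}, {5, 7, 13, 23}, {5, 11, 13, 19}]

/-- the weights -/
noncomputable def w4 (w : Fin 4 → ℝ) (p : ℕ) : ℝ := ∑ i, w i * (if p % 24 ∈ S4 i then 1 else 0)

lemma w4_mod (w : Fin 4 → ℝ) (p : ℕ) : w4 w (p % 24) = w4 w p := by
  unfold w4
  rw [Nat.mod_mod]

lemma w4_abs (w : Fin 4 → ℝ) (p : ℕ) : |w4 w p| ≤ ∑ i, |w i| := by
  unfold w4
  refine (abs_sum_le_sum_abs _ _).trans (sum_le_sum fun i _ => ?_)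
  rw [abs_mul]
  refine mul_le_of_le_one_right (abs_nonneg _) ?_
  split_ifs <;> simp

lemma sum_w4 (w : Fin 4 → ℝ) (n : ℕ) :
    ∑ p ∈ n.primeFactors, w4 w p = ∑ i, w i * mX i n := by
  unfold w4 mX
  rw [sum_comm]
  refine sum_congr rfl fun i _ => ?_
  rw [← mul_sum, ← sum_filter, sum_const, nsmul_eq_mul, mul_one]
  rfl

lemma w4_val (w : Fin 4 → ℝ) (p : ℕ) : w4 w p =
    w 0 * (if p % 24 ∈ ({5, 11, 17, 23} : Finset ℕ) then 1 else 0) +
    w 1 * (if p % 24 ∈ ({5, 7, 17, 19} : Finset ℕ) then 1 else 0) +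
    w 2 * (if p % 24 ∈ ({5, 7, 13, 23} : Finset ℕ) then 1 else 0) +
    w 3 * (if p % 24 ∈ ({5, 11, 13, 19} : Finset ℕ) then 1 else 0) := by
  unfold w4
  rw [Fin.sum_univ_four]
  rfl

/-- SN-GL4 -/
theorem t_GL4 : Pool.Agent.N818.SN.S_GL4 := by
  intro w t hw
  have v1 : w4 w 1 = 0 := by rw [w4_val]; norm_num
  have v5 : w4 w 5 = w 0 + w 1 + w 2 + w 3 := by rw [w4_val]; norm_num
  have v7 : w4 w 7 = w 1 + w 2 := by rw [w4_val]; norm_num
  have v11 : w4 w 11 = w 0 + w 3 := by rw [w4_val]; norm_num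
  have v13 : w4 w 13 = w 2 + w 3 := by rw [w4_val]; norm_num
  have v17 : w4 w 17 = w 0 + w 1 := by rw [w4_val]; norm_num
  have v19 : w4 w 19 = w 1 + w 3 := by rw [w4_val]; norm_num
  have v23 : w4 w 23 = w 0 + w 2 := by rw [w4_val]; norm_num
  have hV0 : 0 < ((∑ i, w i) ^ 2 + ∑ i, w i ^ 2) / 4 := by
    have h1 : ∃ i, w i ≠ 0 := by
      by_contra hcon
      push Not at hcon
      exact hw (funext hcon)
    obtain ⟨i, hi⟩ := h1
    have h2 : 0 < ∑ i, w i ^ 2 :=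
      sum_pos' (fun i _ => sq_nonneg _) ⟨i, mem_univ _, by positivity⟩
    positivity
  have h := gauss_gen (w4 w) (∑ i, |w i|) ((∑ i, w i) / 2)
    (((∑ i, w i) ^ 2 + ∑ i, w i ^ 2) / 4) hV0 (w4_abs w)
    (by
      intro z hz
      obtain ⟨C, hC0, hC⟩ := mer24 (w4 w) (w4_mod w) z hz
      refine ⟨C, hC0, fun y hy => ?_⟩
      have h1 := hC y hy
      rw [v1, v5, v7, v11, v13, v17, v19, v23] at h1
      have e : (0 + (w 0 + w 1 + w 2 + w 3) + (w 1 + w 2) + (w 0 + w 3) + (w 2 + w 3) +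
          (w 0 + w 1) + (w 1 + w 3) + (w 0 + w 2)) / 8 = (∑ i, w i) / 2 := by
        rw [Fin.sum_univ_four]
        ring
      rw [e] at h1
      exact h1)
    (by
      intro z hz
      obtain ⟨C, hC0, hC⟩ := mer24 (fun p => w4 w p ^ 2) (fun p => by simp only [w4_mod]) z hz
      obtain ⟨C', hC'0, hC'⟩ := mer24 (fun _ => 1) (fun _ => rfl) z hz
      refine ⟨C + ((∑ i, w i) ^ 2 + ∑ i, w i ^ 2) / 4 * C', by positivity, fun y hy => ?_⟩
      have h1 := hC y hy
      have h2 := hC' y hy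
      simp only [v1, v5, v7, v11, v13, v17, v19, v23] at h1
      have e : (0 ^ 2 + (w 0 + w 1 + w 2 + w 3) ^ 2 + (w 1 + w 2) ^ 2 + (w 0 + w 3) ^ 2 +
          (w 2 + w 3) ^ 2 + (w 0 + w 1) ^ 2 + (w 1 + w 3) ^ 2 + (w 0 + w 2) ^ 2) / 8 =
          ((∑ i, w i) ^ 2 + ∑ i, w i ^ 2) / 4 := by
        rw [Fin.sum_univ_four, Fin.sum_univ_four]
        ring
      rw [e] at h1
      norm_num at h2
      generalize ((∑ i, w i) ^ 2 + ∑ i, w i ^ 2) / 4 = V at *
      have e2 : ∑ p ∈ PS z y, w4 w p ^ 2 * (1 / (p : ℝ)) -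
          V * ∑ p ∈ PS z y, 1 / (p : ℝ) =
          (∑ p ∈ PS z y, w4 w p ^ 2 * (1 / (p : ℝ)) - V * Real.log (Real.log y)) -
          V * (∑ p ∈ PS z y, 1 / (p : ℝ) - Real.log (Real.log y)) := by ring
      rw [e2]
      refine (abs_sub _ _).trans (add_le_add h1 ?_)
      rw [abs_mul, abs_of_pos hV0]
      refine mul_le_mul_of_nonneg_left ?_ hV0.le
      simpa using h2) t
  refine h.congr fun X => ?_
  unfold SQ
  rw [filter_filter]
  simp only [sum_w4]

end Pool.Agent.N558.SN
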