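import Pool.Agent.N818.SN.Stm
import Pool.Agent.N971.MF.EUL

/-!
# `WC n` and `WA n` have the same Euler factors
-/

set_option autoImplicit false

open NumberField IsDedekindDomain WeierstrassCurve Pool.Agent.W189.NF
open Pool.Agent.H921R2.TatePole (nm)
open Pool.Agent.Y698 (AP min_count v_unit)
open Pool.Agent.W97.MT (affCount ap)
open Pool.Agent.N54.MF

namespace Pool.Agent.N558.SN

/-! ### a character sum -/

section charsum

variable {F : Type} [Field F] [Fintype F] [DecidableEq F]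

/-- the number of the roots of a quadratic polynomial -/
theorem card_quad (hF : ringChar F ≠ 2) (c b : F) :
    (((Finset.univ.filter fun x : F => x ^ 2 + c * x + b = 0).card : ℕ) : ℤ) =
      quadraticChar F (c ^ 2 - 4 * b) + 1 := by
  have h2 : (2 : F) ≠ 0 := Ring.two_ne_zero hF
  have h4 : (4 : F) ≠ 0 := by
    have : (4 : F) = 2 * 2 := by norm_num
    rw [this]; exact mul_ne_zero h2 h2
  rw [← quadraticChar_card_sqrts hF]
  congr 1
  refine Finset.card_bij (fun x _ => 2 * x + c) ?_ ?_ ?_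
  · intro x hx
    have := (Finset.mem_filter.1 hx).2
    rw [Set.mem_toFinset, Set.mem_ofPred_eq]
    linear_combination 4 * this
  · intro x _ y _ h
    exact mul_left_cancel₀ h2 (by linear_combination h)
  · intro y hy
    rw [Set.mem_toFinset, Set.mem_ofPred_eq] at hy
    refine ⟨(y - c) / 2, ?_, by field_simp; ring⟩
    rw [Finset.mem_filter]
    refine ⟨Finset.mem_univ _, ?_⟩
    have e : ((y - c) / 2) ^ 2 + c * ((y - c) / 2) + b = (y ^ 2 - (c ^ 2 - 4 * b)) / 4 := by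
      field_simp
      ring
    rw [e, hy, sub_self, zero_div]

/-- the number of points of the quotient by a point of order two -/
theorem char_sum (hF : ringChar F ≠ 2) (a b : F) (hb : b ≠ 0) :
    ∑ x : F, quadraticChar F (x * (x ^ 2 + a * x + b)) =
      ∑ z : F, quadraticChar F (z * (z ^ 2 - 2 * a * z + (a ^ 2 - 4 * b))) := by
  have h1 : ∀ x : F, quadraticChar F (x * (x ^ 2 + a * x + b)) =
      if x = 0 then 0 else quadraticChar F (x + a + b * x⁻¹) := by
    intro x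
    by_cases hx : x = 0
    · rw [if_pos hx, hx, zero_mul, MulChar.map_zero]
    · rw [if_neg hx]
      have e : x * (x ^ 2 + a * x + b) = x ^ 2 * (x + a + b * x⁻¹) := by
        field_simp
      rw [e, map_mul, quadraticChar_sq_one' hx, one_mul]
  rw [Finset.sum_congr rfl fun x _ => h1 x, Finset.sum_ite, Finset.sum_const_zero, zero_add]
  have h2 : ∑ x ∈ Finset.univ.filter (fun x : F => ¬ x = 0), quadraticChar F (x + a + b * x⁻¹) =
      ∑ z : F, ∑ x ∈ (Finset.univ.filter (fun x : F => ¬ x = 0)).filter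
        (fun x => x + a + b * x⁻¹ = z), quadraticChar F (x + a + b * x⁻¹) :=
    (Finset.sum_fiberwise _ _ _).symm
  rw [h2]
  have h3 : ∀ z : F, ∑ x ∈ (Finset.univ.filter (fun x : F => ¬ x = 0)).filter
        (fun x => x + a + b * x⁻¹ = z), quadraticChar F (x + a + b * x⁻¹) =
      quadraticChar F z + quadraticChar F (z * (z ^ 2 - 2 * a * z + (a ^ 2 - 4 * b))) := by
    intro z
    rw [Finset.sum_congr rfl fun x hx => by rw [(Finset.mem_filter.1 hx).2], Finset.sum_const,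
      nsmul_eq_mul]
    have e : (Finset.univ.filter (fun x : F => ¬ x = 0)).filter (fun x => x + a + b * x⁻¹ = z) =
        Finset.univ.filter fun x : F => x ^ 2 + (a - z) * x + b = 0 := by
      ext x
      simp only [Finset.mem_filter, Finset.mem_univ, true_and]
      constructor
      · rintro ⟨hx, h⟩
        have : x * (x + a + b * x⁻¹) = x * z := by rw [h]
        have e2 : x * (x + a + b * x⁻¹) = x ^ 2 + a * x + b := by field_simp
        rw [e2] at this
        linear_combination this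
      · intro h
        have hx : x ≠ 0 := by
          rintro rfl
          apply hb
          linear_combination h
        refine ⟨hx, ?_⟩
        apply mul_left_cancel₀ hx
        have e2 : x * (x + a + b * x⁻¹) = x ^ 2 + a * x + b := by field_simp
        rw [e2]
        linear_combination h
    rw [e, card_quad hF, map_mul]
    have e3 : (a - z) ^ 2 - 4 * b = z ^ 2 - 2 * a * z + (a ^ 2 - 4 * b) := by ring
    rw [e3]
    ring
  rw [Finset.sum_congr rfl fun z _ => h3 z, Finset.sum_add_distrib, quadraticChar_sum_zero hF,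
    zero_add]

end charsum

/-! ### the numbers of points -/

/-- the curve `y² = x³ + A x² + B x` -/
def WAB (A B : ℤ) : WeierstrassCurve ℤ := ⟨0, A, 0, B, 0⟩

theorem affCount_WAB (p : ℕ) [hp : Fact p.Prime] (hp2 : p ≠ 2) (A B : ℤ) :
    (affCount (WAB A B) p : ℤ) = p + ∑ x : ZMod p,
      quadraticChar (ZMod p) (x * (x ^ 2 + A * x + B)) := by
  have hchar : ringChar (ZMod p) ≠ 2 := by rw [ZMod.ringChar_zmod_n]; exact hp2
  have e : affCount (WAB A B) p = Nat.card {q : ZMod p × ZMod p //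
      q.2 ^ 2 = (fun x : ZMod p => x * (x ^ 2 + A * x + B)) q.1} := by
    unfold affCount
    refine Nat.card_congr (Equiv.subtypeEquivRight fun P => ?_)
    rw [WeierstrassCurve.Affine.equation_iff]
    simp only [WAB, WeierstrassCurve.map, map_zero, eq_intCast]
    rw [← sub_eq_zero, ← sub_eq_zero (b := P.1 * (P.1 ^ 2 + A * P.1 + B))]
    refine Eq.congr_left ?_
    ring
  rw [e, Pool.Agent.H82R3.EK.card_points hchar (fun x : ZMod p => x * (x ^ 2 + A * x + B)),
    ZMod.card]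

/-- the numbers of points of 2-isogenous curves -/
theorem ap_iso (p : ℕ) [hp : Fact p.Prime] (hp2 : p ≠ 2) (A B : ℤ) (hB : ¬ (p : ℤ) ∣ B) :
    ap (WAB (-2 * A) (A ^ 2 - 4 * B)) p = ap (WAB A B) p := by
  have hchar : ringChar (ZMod p) ≠ 2 := by rw [ZMod.ringChar_zmod_n]; exact hp2
  have hb : ((B : ℤ) : ZMod p) ≠ 0 := by
    rw [Ne, ZMod.intCast_zmod_eq_zero_iff_dvd]
    exact hB
  unfold ap
  rw [affCount_WAB p hp2, affCount_WAB p hp2, char_sum hchar _ _ hb]
  congr 2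
  refine Finset.sum_congr rfl fun z _ => ?_
  congr 1
  push_cast
  ring

open Pool.Agent.N818.SN (WA WC WB base Fm S_LC)
open Pool.Agent.N971.MF (W)

theorem WA_eq (n : ℕ) : WA n = W n := by
  unfold WA W
  ext <;> simp only <;> ring

theorem WC_eq (n : ℕ) : WC n = WAB (-2 * (7 * n)) ((7 * n : ℤ) ^ 2 - 4 * (12 * (n : ℤ) ^ 2)) := by
  unfold WC WAB
  ext <;> simp only <;> ring

theorem ap_WC (p : ℕ) [hp : Fact p.Prime] (hp2 : p ≠ 2) (hp3 : p ≠ 3) (n : ℕ) (hn : ¬ p ∣ n) :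
    ap (WC n) p = ap (W n) p := by
  have hpp := hp.out
  have hB : ¬ (p : ℤ) ∣ 12 * (n : ℤ) ^ 2 := by
    intro h
    have h' : p ∣ 2 ^ 2 * 3 * n ^ 2 := by
      have : (p : ℤ) ∣ ((2 ^ 2 * 3 * n ^ 2 : ℕ) : ℤ) := by
        push_cast
        exact h
      exact_mod_cast this
    rcases (hpp.dvd_mul).1 h' with h1 | h1
    · rcases (hpp.dvd_mul).1 h1 with h2 | h2
      · exact hp2 ((Nat.prime_dvd_prime_iff_eq hpp Nat.prime_two).1 (hpp.dvd_of_dvd_pow h2))
      · exact hp3 ((Nat.prime_dvd_prime_iff_eq hpp Nat.prime_three).1 h2)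
    · exact hn (hpp.dvd_of_dvd_pow h1)
  rw [WC_eq, ap_iso p hp2 _ _ hB]
  unfold ap
  rw [affCount_WAB p hp2, Pool.Agent.N971.MF.EUL.affCount_W p hp2]
  congr 2
  refine Fintype.sum_equiv (Equiv.addRight (3 * (n : ZMod p))) _ _ fun x => ?_
  congr 1
  simp only [Equiv.coe_addRight]
  push_cast
  ring

/-! ### the local factors of `WC n` -/

theorem WC_Δ (n : ℕ) : (WC n).Δ = 3072 * (n : ℤ) ^ 6 := by
  simp only [WC, WeierstrassCurve.Δ, WeierstrassCurve.b₂, WeierstrassCurve.b₄,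
    WeierstrassCurve.b₆, WeierstrassCurve.b₈]
  ring

theorem WC_c₄ (n : ℕ) : (WC n).c₄ = 3088 * (n : ℤ) ^ 2 := by
  simp only [WC, WeierstrassCurve.c₄, WeierstrassCurve.b₂, WeierstrassCurve.b₄]
  ring

theorem WC_c₆ (n : ℕ) : (WC n).c₆ = 171584 * (n : ℤ) ^ 3 := by
  simp only [WC, WeierstrassCurve.c₆, WeierstrassCurve.b₂, WeierstrassCurve.b₄,
    WeierstrassCurve.b₆]
  ring

section
variable (v : HeightOneSpectrum (𝓞 ℚ)) {n : ℕ}

theorem Δ_L : ((base (WC n) ℚ).baseChange (v.adicCompletion ℚ)).Δ =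
    ((3072 * (n : ℤ) ^ 6 : ℤ) : v.adicCompletion ℚ) := by
  rw [base_eq, map_Δ, map_Δ, WC_Δ, eq_intCast, map_intCast]

theorem c₄_L : ((base (WC n) ℚ).baseChange (v.adicCompletion ℚ)).c₄ =
    ((3088 * (n : ℤ) ^ 2 : ℤ) : v.adicCompletion ℚ) := by
  rw [base_eq, map_c₄, map_c₄, WC_c₄, eq_intCast, map_intCast]

theorem additive {m : ℕ} (hm : ¬ 12 ∣ m) {c : ℤ} (hc : ¬ (ng v : ℤ) ∣ c)
    (h : (3072 * (n : ℤ) ^ 6 : ℤ) = (ng v : ℤ) ^ m * c) (h3 : ng v ≠ 3) :
    aV (base (WC n) ℚ) v = 0 ∧ eV (base (WC n) ℚ) v = 0 := by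
  have hp := ng_prime v
  have h9 : ¬ (ng v : ℤ) ∣ 3 := by
    intro hd
    have h1 : ng v ∣ 3 := by exact_mod_cast hd
    exact h3 ((Nat.prime_dvd_prime_iff_eq hp Nat.prime_three).1 h1)
  have v9 := vunit v h9
  have h90 : ((3 : ℤ) : v.adicCompletion ℚ) ≠ 0 := by
    intro h0
    rw [h0, map_zero] at v9
    exact zero_ne_one v9
  refine min_add' (v.adicCompletionIntegers ℚ) (m := m) hm ?_
    (j := ((28756228 : ℤ) : v.adicCompletion ℚ) * ((3 : ℤ) : v.adicCompletion ℚ)⁻¹) ?_ ?_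
  · rw [Δ_L, h]
    exact vint v m hc
  · rw [map_mul, map_inv₀, v9, inv_one, mul_one]
    have e : ((28756228 : ℤ) : v.adicCompletion ℚ) =
      algebraMap (Ov v) (v.adicCompletion ℚ) ((28756228 : ℤ) : Ov v) := (map_intCast _ _).symm
    rw [e]
    exact HeightOneSpectrum.valuation_le_one _ _
  · rw [Δ_L, c₄_L]
    rw [mul_assoc, mul_comm ((3 : ℤ) : v.adicCompletion ℚ)⁻¹, ← mul_assoc, eq_mul_inv_iff_mul_eq₀ h90]
    push_cast
    ring

theorem fac_two (hn : n % 24 = 11) (h2 : ng v = 2) :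
    aV (base (WC n) ℚ) v = 0 ∧ eV (base (WC n) ℚ) v = 0 := by
  refine additive v (m := 10) (by norm_num) (c := 3 * (n : ℤ) ^ 6) ?_ ?_ (by rw [h2]; norm_num)
  · rw [h2]
    intro h
    have h1 : (2 : ℤ) ∣ 3 * (n : ℤ) ^ 6 := by exact_mod_cast h
    have hp := Int.prime_two
    rcases hp.dvd_or_dvd h1 with h3 | h3
    · norm_num at h3
    · have := hp.dvd_of_dvd_pow h3
      omega
  · rw [h2]
    push_cast
    ring

theorem fac_dvd (hsq : Squarefree n) (hn : n % 24 = 11) (hd : ng v ∣ n) :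
    aV (base (WC n) ℚ) v = 0 ∧ eV (base (WC n) ℚ) v = 0 := by
  have hp := ng_prime v
  have hp2 : ng v ≠ 2 := by
    intro h; rw [h] at hd; omega
  have hp3 : ng v ≠ 3 := by
    intro h; rw [h] at hd; omega
  obtain ⟨m, hm⟩ := hd
  have hpm : ¬ ng v ∣ m := by
    intro h
    obtain ⟨k, hk⟩ := h
    have : ng v * ng v ∣ n := ⟨k, by rw [hm, hk]; ring⟩
    have := hsq _ this
    exact hp.one_lt.ne' (Nat.isUnit_iff.1 this)
  refine additive v (m := 6) (by norm_num) (c := 3072 * (m : ℤ) ^ 6) ?_ ?_ hp3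
  · intro h
    have hz : Prime ((ng v : ℕ) : ℤ) := Nat.prime_iff_prime_int.1 hp
    rcases hz.dvd_or_dvd h with h3 | h3
    · have h4 : ng v ∣ 2 ^ 10 * 3 := by
        have : ((ng v : ℕ) : ℤ) ∣ ((2 ^ 10 * 3 : ℕ) : ℤ) := by
          norm_num
          exact h3
        exact_mod_cast this
      rcases (hp.dvd_mul).1 h4 with h5 | h5
      · exact hp2 ((Nat.prime_dvd_prime_iff_eq hp Nat.prime_two).1 (hp.dvd_of_dvd_pow h5))
      · exact hp3 ((Nat.prime_dvd_prime_iff_eq hp Nat.prime_three).1 h5)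
    · have := hz.dvd_of_dvd_pow h3
      exact hpm (by exact_mod_cast this)
  · have : (n : ℤ) = (ng v : ℤ) * m := by exact_mod_cast hm
    rw [this]
    ring

theorem ndvd_Δ (hp2 : ng v ≠ 2) (hp3 : ng v ≠ 3) (hd : ¬ ng v ∣ n) :
    ¬ (ng v : ℤ) ∣ 3072 * (n : ℤ) ^ 6 := by
  have hp := ng_prime v
  intro h
  have hz : Prime ((ng v : ℕ) : ℤ) := Nat.prime_iff_prime_int.1 hp
  rcases hz.dvd_or_dvd h with h3 | h3
  · have h4 : ng v ∣ 2 ^ 10 * 3 := by
      have : ((ng v : ℕ) : ℤ) ∣ ((2 ^ 10 * 3 : ℕ) : ℤ) := by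
        norm_num
        exact h3
      exact_mod_cast this
    rcases (hp.dvd_mul).1 h4 with h5 | h5
    · exact hp2 ((Nat.prime_dvd_prime_iff_eq hp Nat.prime_two).1 (hp.dvd_of_dvd_pow h5))
    · exact hp3 ((Nat.prime_dvd_prime_iff_eq hp Nat.prime_three).1 h5)
  · have := hz.dvd_of_dvd_pow h3
    exact hd (by exact_mod_cast this)

theorem fac_good (hp2 : ng v ≠ 2) (hp3 : ng v ≠ 3) (hd : ¬ ng v ∣ n) :
    aV (base (WC n) ℚ) v = ap (WC n) (ng v) ∧ eV (base (WC n) ℚ) v = ng v := by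
  have hfin := finite_res v
  have hΔ : IsUnit ((WC n).map (Int.castRingHom (Ov v))).Δ := by
    rw [map_Δ, WC_Δ, eq_intCast]
    exact (unit_int v _).2 (ndvd_Δ v hp2 hp3 hd)
  obtain ⟨a1, a2⟩ := min_count (v.adicCompletionIntegers ℚ) hΔ (base_eq v (WC n))
  have hcard : Nat.card (IsLocalRing.ResidueField (v.adicCompletionIntegers ℚ)) = ng v := by
    rw [card_res]
    exact nm_eq_ng v
  unfold aV eV
  rw [a1, a2, hcard]
  refine ⟨?_, rfl⟩
  unfold ap
  congr 2
  rw [WeierstrassCurve.map_map]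
  have e : (IsLocalRing.residue (v.adicCompletionIntegers ℚ)).comp (Int.castRingHom (Ov v)) =
      Int.castRingHom (IsLocalRing.ResidueField (Ov v)) := RingHom.ext_int _ _
  rw [e, card_map (WC n) (res v)]
  rfl

theorem fac_three (hn : n % 24 = 11) (h3 : ng v = 3) :
    aV (base (WC n) ℚ) v = -1 ∧ eV (base (WC n) ℚ) v = 0 := by
  have hn3 : ¬ (3 : ℤ) ∣ (n : ℤ) := by omega
  have hpr := Int.prime_three
  have h1 : ¬ (ng v : ℤ) ∣ 1024 * (n : ℤ) ^ 6 := by
    rw [h3]
    intro h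
    have h' : (3 : ℤ) ∣ 1024 * (n : ℤ) ^ 6 := by exact_mod_cast h
    rcases hpr.dvd_or_dvd h' with h4 | h4
    · norm_num at h4
    · exact hn3 (hpr.dvd_of_dvd_pow h4)
  have h2 := vint v 1 h1
  have hΔ0 : ((WC n).map (Int.castRingHom (Ov v))).Δ ≠ 0 := by
    intro h0
    have h5 := congrArg (algebraMap (Ov v) (v.adicCompletion ℚ)) h0
    rw [map_Δ, WC_Δ, eq_intCast, map_intCast, map_zero] at h5
    have e : (3072 * (n : ℤ) ^ 6 : ℤ) = (ng v : ℤ) ^ 1 * (1024 * (n : ℤ) ^ 6) := by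
      rw [h3]; push_cast; ring
    rw [e] at h5
    rw [h5, map_zero] at h2
    exact WithZero.exp_ne_zero h2.symm
  have hΔu : ¬ IsUnit ((WC n).map (Int.castRingHom (Ov v))).Δ := by
    rw [map_Δ, WC_Δ, eq_intCast, unit_int, not_not, h3]
    exact ⟨1024 * (n : ℤ) ^ 6, by push_cast; ring⟩
  have hc : IsUnit ((WC n).map (Int.castRingHom (Ov v))).c₄ := by
    rw [map_c₄, WC_c₄, eq_intCast, unit_int, h3]
    intro h
    have h' : (3 : ℤ) ∣ 3088 * (n : ℤ) ^ 2 := by exact_mod_cast h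
    rcases hpr.dvd_or_dvd h' with h4 | h4
    · norm_num at h4
    · exact hn3 (hpr.dvd_of_dvd_pow h4)
  refine min_mult (v.adicCompletionIntegers ℚ) hΔ0 hΔu hc ?_ (base_eq v (WC n))
  intro s w hw h
  rw [map_c₄, map_c₆, WC_c₄, WC_c₆, eq_intCast, eq_intCast, ← Int.cast_mul, map_intCast] at h
  have h5 := congrArg ((res v).trans (ZMod.ringEquivCongr h3)) h
  rw [map_pow, map_mul, map_pow, map_neg, map_intCast] at h5
  have hw' : ((res v).trans (ZMod.ringEquivCongr h3)) w ≠ 0 := by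
    rw [Ne, map_eq_zero_iff _ (RingEquiv.injective _)]
    exact hw
  have h6 : ((3088 * (n : ℤ) ^ 2 * (171584 * (n : ℤ) ^ 3) : ℤ) : ZMod 3) = 1 := by
    obtain ⟨k, hk⟩ : ∃ k : ℕ, n = 3 * k + 2 := ⟨n / 3, by omega⟩
    rw [hk]
    push_cast
    have h0 : (3 : ZMod 3) = 0 := rfl
    rw [h0, zero_mul, zero_add]
    decide
  rw [h6] at h5
  generalize ((res v).trans (ZMod.ringEquivCongr h3)) s = s' at h5
  generalize ((res v).trans (ZMod.ringEquivCongr h3)) w = w' at h5 hw'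
  revert s' w'
  decide

/-- equal coefficients give equal Euler factors -/
theorem factor_congr {E E' : WeierstrassCurve ℚ} (h1 : aV E v = aV E' v) (h2 : eV E v = eV E' v) :
    (E.baseChange (v.adicCompletion ℚ)).localEulerFactor (v.adicCompletionIntegers ℚ) =
      (E'.baseChange (v.adicCompletion ℚ)).localEulerFactor (v.adicCompletionIntegers ℚ) := by
  unfold WeierstrassCurve.localEulerFactor WeierstrassCurve.localPowerSeries
  rw [localPolynomial_eq, localPolynomial_eq]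
  unfold aV at h1
  unfold eV at h2
  rw [h1, h2]

end

theorem t_LC : S_LC := by
  rintro n ⟨hsq, hn⟩ v
  rw [WA_eq]
  have hp := ng_prime v
  have key : aV (base (WC n) ℚ) v = aV (Pool.Agent.N971.MF.EUL.WQ n) v ∧
      eV (base (WC n) ℚ) v = eV (Pool.Agent.N971.MF.EUL.WQ n) v := by
    by_cases h2 : ng v = 2
    · obtain ⟨a1, a2⟩ := fac_two v hn h2
      obtain ⟨b1, b2⟩ := Pool.Agent.N971.MF.EUL.fac_two v hn h2
      exact ⟨a1.trans b1.symm, a2.trans b2.symm⟩
    by_cases h3 : ng v = 3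
    · obtain ⟨a1, a2⟩ := fac_three v hn h3
      obtain ⟨b1, b2⟩ := Pool.Agent.N971.MF.EUL.fac_three v hn h3
      exact ⟨a1.trans b1.symm, a2.trans b2.symm⟩
    by_cases hd : ng v ∣ n
    · obtain ⟨a1, a2⟩ := fac_dvd v hsq hn hd
      obtain ⟨b1, b2⟩ := Pool.Agent.N971.MF.EUL.fac_dvd v hsq hn hd
      exact ⟨a1.trans b1.symm, a2.trans b2.symm⟩
    · obtain ⟨a1, a2⟩ := fac_good v h2 h3 hd
      obtain ⟨b1, b2⟩ := Pool.Agent.N971.MF.EUL.fac_good v h2 h3 hd
      have : Fact (ng v).Prime := ⟨hp⟩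
      exact ⟨a1.trans ((ap_WC (ng v) h2 h3 n hd).trans b1.symm), a2.trans b2.symm⟩
  exact factor_congr v key.1 key.2

end Pool.Agent.N558.SN
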